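import Pool.Agent.H55.FPP.Main

/-!
# First-passage percolation on `ℤ^d`: infinite geodesics in the star of every direction

Independent weights with a continuous common distribution `F` having an exponential moment, any
dimension `d ≥ 2`, no assumption on the asymptotic shape. There is a norm `g` on `ℝ^d` with
`T(0,v)/g(v) → 1` (the shape theorem, which identifies `g`), and for every vector `θ ≠ 0`, almost
surely from every site `u` there starts an infinite geodesic all of whose limit directions `v`
satisfy `g(v+θ) = g(v) + g(θ)`, that is, lie in a common face of the asymptotic shape with `θ`. If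
`θ` lies in no nontrivial segment of the boundary of the shape, the geodesic has the asymptotic
direction `θ`.
-/

open MeasureTheory Filter
open scoped NNReal Topology

namespace Pool.Agent.Results.MP_884284_pr.GeodesicsInStars

open Pool.Agent.H55.FPP

theorem result (d : ℕ) (_hd : 2 ≤ d) (F : Measure ℝ≥0) [IsProbabilityMeasure F]
    (hcont : ∀ x, F {x} = 0)
    (hexp : ∃ β : ℝ, 0 < β ∧ Integrable (fun t : ℝ≥0 => Real.exp (β * t)) F) :
    ∃ g : Seminorm ℝ (Fin d → ℝ), (∀ x, g x = 0 → x = 0) ∧
      (∀ᵐ ω ∂(law d F), Tendsto (fun v : Fin d → ℤ => passageTime ω 0 v / g (toReal v))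
        cofinite (𝓝 1)) ∧
      ∀ θ : Fin d → ℝ, θ ≠ 0 → ∀ᵐ ω ∂(law d F), ∀ u : Fin d → ℤ,
        ∃ γ : ℕ → Fin d → ℤ, IsInfiniteGeodesic ω u γ ∧
          (∀ v, IsLimitDirection γ v → g (v + θ) = g v + g θ) ∧
          ((∀ v, v ≠ 0 → g (v + θ) = g v + g θ → ∃ c : ℝ, 0 < c ∧ v = c • θ) →
            HasDirection γ θ) := by
  obtain ⟨β, hβ, hint⟩ := hexp
  haveI : NullSingletonClass F := ⟨hcont⟩
  exact main hβ hint

end Pool.Agent.Results.MP_884284_pr.GeodesicsInStars
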